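import Pool.Agent.Work.MP_e10cd8_co.Uni.LTop

/-! The order of magnitude for every fixed `m` follows from the uniform bounds. -/

namespace Pool.Agent.Work.MP_e10cd8_co.Uni

theorem fixed_order (m : ℕ) (hm : 2 ≤ m) :
    ∃ c C : ℝ, 0 < c ∧ ∃ n₀ : ℕ, ∀ n : ℕ, n₀ ≤ n → ∃ k : ℕ,
      IsLeast {N : ℕ | ∀ G : Digraph (Fin N), (∀ v, ¬ G.Adj v v) →
        (∃ S : Finset (Fin N), S.card = n ∧ ∀ u ∈ S, ∀ v ∈ S, ¬ G.Adj u v) ∨
          ∃ f : Fin m → Fin N, Function.Injective f ∧ ∀ i j, i < j → G.Adj (f i) (f j)} k ∧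
      c * (n : ℝ) ^ (m - 1) / Real.log n ^ (m - 2) ≤ k ∧
        (k : ℝ) ≤ C * (n : ℝ) ^ (m - 1) / Real.log n ^ (m - 2) := by
  obtain ⟨A, C, n₀, h⟩ := uniform (δ := 1 / 4) (by norm_num)
  have m0 : (0 : ℝ) < m := by exact_mod_cast (by omega : 0 < m)
  refine ⟨1 / (m : ℝ) ^ (A * m), C ^ m / m.factorial, by positivity, max n₀ (m ^ 4), fun n hn => ?_⟩
  obtain ⟨k, k1, k2, k3⟩ := h n m (le_of_max_le_left hn) hm (by
    have a : (m : ℝ) ^ 4 ≤ n := by exact_mod_cast le_of_max_le_right hn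
    have b := Real.rpow_le_rpow (by positivity) a (show (0 : ℝ) ≤ 1 / 2 - 1 / 4 by norm_num)
    rwa [← Real.rpow_natCast, ← Real.rpow_mul m0.le,
      show ((4 : ℕ) : ℝ) * (1 / 2 - 1 / 4) = 1 by norm_num, Real.rpow_one] at b)
  exact ⟨k, k1, le_trans (le_of_eq (by rw [one_div_mul_eq_div, div_div])) k2,
    k3.trans (le_of_eq (by rw [div_mul_eq_mul_div, div_div]))⟩

end Pool.Agent.Work.MP_e10cd8_co.Uni
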